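import Mathlib

set_option autoImplicit false
set_option maxHeartbeats 400000
open MeasureTheory Set Filter Topology Real Metric

namespace Pool.Agent.H.MP_f69e58_an

noncomputable def ph (r : ℝ) (w : ℂ) : ℂ := (1 - w / (r : ℂ) ^ 2) / (1 - w)

noncomputable def lam (r c : ℝ) : ℝ := (∫ s in (0 : ℝ)..c, posLog ((1 - s) / r)) / c

lemma cint {E : Type*} [NormedAddCommGroup E] {g : ℂ → E}
    (hg : ContinuousOn g (closedBall 0 1)) : CircleIntegrable g 0 1 :=
  (hg.mono sphere_subset_closedBall).circleIntegrable zero_le_one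

lemma avg_sq {g : ℂ → ℂ} (hg : DifferentiableOn ℂ g (closedBall 0 1)) (h0 : g 0 = 1) :
    circleAverage (fun u => ‖g u‖ ^ 2) 0 1 = 1 + circleAverage (fun u => ‖g u - 1‖ ^ 2) 0 1 := by
  have hc := hg.continuousOn
  have h1 : circleAverage g 0 1 = 1 := by
    rw [← h0]
    apply DiffContOnCl.circleAverage
    rw [abs_one]
    apply DifferentiableOn.diffContOnCl
    rwa [closure_ball _ one_ne_zero]
  have h2 : circleAverage (fun u => (g u).re) 0 1 = 1 := by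
    have := Complex.reCLM.circleAverage_comp_comm (cint hc)
    rw [h1] at this
    simpa [Function.comp_def] using this
  have e : (fun u => ‖g u‖ ^ 2) = fun u => (‖g u - 1‖ ^ 2 + 2 * (g u).re) - 1 := by
    ext u
    rw [← Complex.normSq_eq_norm_sq, ← Complex.normSq_eq_norm_sq]
    simp [Complex.normSq_apply]; ring
  have i1 : CircleIntegrable (fun u => ‖g u - 1‖ ^ 2) 0 1 := cint (by fun_prop)
  have i2 : CircleIntegrable (fun u => 2 * (g u).re) 0 1 := cint (by fun_prop)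
  have i3 : CircleIntegrable (fun u => ‖g u - 1‖ ^ 2 + 2 * (g u).re) 0 1 := cint (by fun_prop)
  rw [e, circleAverage_fun_sub i3 (circleIntegrable_const _ _ _), circleAverage_fun_add i1 i2,
    circleAverage_const]
  have h3 : circleAverage (fun u => 2 * (g u).re) 0 1 = 2 := by
    have := circleAverage_fun_smul (a := (2 : ℝ)) (f := fun u => (g u).re) (c := 0) (R := 1)
    simp only [smul_eq_mul] at this
    rw [this, h2]; norm_num
  rw [h3]; ring

lemma den_ne {w u : ℂ} (hw : ‖w‖ < 1) (hu : u ∈ closedBall (0 : ℂ) 1) : 1 - w * u ≠ 0 := by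
  intro h
  have h1 : ‖w * u‖ = 1 := by rw [← sub_eq_zero.1 h, norm_one]
  rw [norm_mul] at h1
  rw [mem_closedBall_zero_iff] at hu
  nlinarith [norm_nonneg w, norm_nonneg u]

lemma avg_cmul (a : ℝ) (f : ℂ → ℝ) :
    circleAverage (fun u => a * f u) 0 1 = a * circleAverage f 0 1 := by
  have := circleAverage_fun_smul (a := a) (f := f) (c := 0) (R := 1)
  simpa only [smul_eq_mul] using this

lemma avg_inv {w : ℂ} (hw : ‖w‖ < 1) :
    circleAverage (fun u => ‖(1 - w * u)⁻¹‖ ^ 2) 0 1 = 1 / (1 - ‖w‖ ^ 2) := by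
  have hd : DifferentiableOn ℂ (fun u => (1 - w * u)⁻¹) (closedBall 0 1) :=
    DifferentiableOn.inv (by fun_prop) fun u hu => den_ne hw hu
  have h1 := avg_sq hd (by simp)
  have h2 : circleAverage (fun u => ‖(1 - w * u)⁻¹ - 1‖ ^ 2) 0 1 =
      circleAverage (fun u => ‖w‖ ^ 2 * ‖(1 - w * u)⁻¹‖ ^ 2) 0 1 := by
    apply circleAverage_congr_sphere
    intro u hu
    rw [abs_one] at hu
    have h3 := den_ne hw (sphere_subset_closedBall hu)
    have h4 : (1 - w * u)⁻¹ - 1 = w * u * (1 - w * u)⁻¹ := by field_simp; ring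
    have h5 : ‖u‖ = 1 := by simpa using hu
    beta_reduce
    rw [h4, norm_mul, norm_mul, h5]; ring
  rw [h2, avg_cmul] at h1
  have h6 : 0 < 1 - ‖w‖ ^ 2 := by nlinarith [norm_nonneg w]
  rw [eq_div_iff h6.ne']
  linarith

lemma ph_diff (r : ℝ) {w : ℂ} (hw : ‖w‖ < 1) :
    DifferentiableOn ℂ (fun u => ph r (w * u)) (closedBall 0 1) := by
  unfold ph
  exact DifferentiableOn.div (by fun_prop) (by fun_prop) fun u hu => den_ne hw hu

lemma ph_sub {r : ℝ} (hr : 0 < r) {w : ℂ} (hw : ‖w‖ < 1) :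
    circleAverage (fun u => ‖ph r (w * u) - 1‖ ^ 2) 0 1 =
      ‖w‖ ^ 2 * (1 / r ^ 2 - 1) ^ 2 / (1 - ‖w‖ ^ 2) := by
  have h2 : circleAverage (fun u => ‖ph r (w * u) - 1‖ ^ 2) 0 1 =
      circleAverage (fun u => (‖w‖ ^ 2 * (1 / r ^ 2 - 1) ^ 2) * ‖(1 - w * u)⁻¹‖ ^ 2) 0 1 := by
    apply circleAverage_congr_sphere
    intro u hu
    rw [abs_one] at hu
    have h3 := den_ne hw (sphere_subset_closedBall hu)
    have hr' : (r : ℂ) ≠ 0 := by exact_mod_cast hr.ne'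
    have h4 : ph r (w * u) - 1 = -(w * u * ((1 / r ^ 2 - 1 : ℝ) : ℂ) * (1 - w * u)⁻¹) := by
      unfold ph; push_cast; field_simp; ring
    have h5 : ‖u‖ = 1 := by simpa using hu
    beta_reduce
    rw [h4, norm_neg, norm_mul, norm_mul, norm_mul, h5, Complex.norm_real, Real.norm_eq_abs,
      mul_pow, mul_pow, sq_abs]; ring
  rw [h2, avg_cmul, avg_inv hw]; ring

lemma ph_le {r : ℝ} (hr : 0 < r) (hr1 : r < 1) {w : ℂ} (hw : ‖w‖ ≤ r) : ‖ph r w‖ ≤ 1 / r := by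
  have h3 : 1 - w ≠ 0 := by
    intro h
    have : w = 1 := by linear_combination -h
    rw [this, norm_one] at hw; linarith
  have hr' : (r : ℂ) ≠ 0 := by exact_mod_cast hr.ne'
  have e : ph r w = (((r ^ 2 : ℝ) : ℂ) - w) / (((r ^ 2 : ℝ) : ℂ) * (1 - w)) := by
    unfold ph; push_cast; field_simp
  rw [e, norm_div, norm_mul, Complex.norm_real, Real.norm_eq_abs, abs_of_pos (by positivity),
    div_le_div_iff₀ (mul_pos (by positivity) (norm_pos_iff.2 h3)) hr]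
  have h1 : ‖((r ^ 2 : ℝ) : ℂ) - w‖ ≤ r * ‖1 - w‖ := by
    apply le_of_sq_le_sq _ (by positivity)
    rw [mul_pow, ← Complex.normSq_eq_norm_sq, ← Complex.normSq_eq_norm_sq]
    have h2 : Complex.normSq w ≤ r ^ 2 := by
      rw [Complex.normSq_eq_norm_sq]; nlinarith [norm_nonneg w]
    simp only [Complex.normSq_apply, Complex.sub_re, Complex.ofReal_re, Complex.sub_im,
      Complex.ofReal_im, Complex.one_re, Complex.one_im] at h2 ⊢
    have h4 : 0 ≤ (1 - r ^ 2) * (r ^ 2 - (w.re * w.re + w.im * w.im)) :=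
      mul_nonneg (by nlinarith) (by linarith)
    nlinarith
  nlinarith [norm_nonneg (1 - w)]

lemma pow_sub_one_le {x : ℂ} {R : ℝ} (hR : 1 ≤ R) (hx : ‖x‖ ≤ R) (k : ℕ) :
    ‖x ^ k - 1‖ ≤ k * R ^ k * ‖x - 1‖ := by
  induction k with
  | zero => simp
  | succ k ih =>
    have e : x ^ (k + 1) - 1 = x * (x ^ k - 1) + (x - 1) := by ring
    have h1 : 1 ≤ R ^ (k + 1) := one_le_pow₀ hR
    rw [e]
    refine (norm_add_le _ _).trans ?_
    rw [norm_mul]
    have h2 : ‖x‖ * ‖x ^ k - 1‖ ≤ R * (k * R ^ k * ‖x - 1‖) :=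
      mul_le_mul hx ih (norm_nonneg _) (by linarith)
    have h3 : ‖x - 1‖ ≤ R ^ (k + 1) * ‖x - 1‖ := le_mul_of_one_le_left (norm_nonneg _) h1
    push_cast
    rw [pow_succ] at *
    nlinarith

lemma U1 {r t R : ℝ} (hr : 0 < r) (hr1 : r < 1) (ht : 0 ≤ t) (ht1 : t < 1) (hR : 1 / r ≤ R)
    {w : ℂ} (hw : ‖w‖ = r * t) (k : ℕ) :
    circleAverage (fun u => ‖ph r (w * u)‖ ^ (2 * k)) 0 1 ≤
      1 + 4 * (k * R ^ (k + 1)) ^ 2 * ((1 - r) ^ 2 / (1 - t)) := by
  have hw1 : ‖w‖ < 1 := by rw [hw]; nlinarith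
  have hd := ph_diff r hw1
  have hR1 : 1 ≤ R := le_trans (by rw [le_div_iff₀ hr]; linarith) hR
  have h1 := avg_sq (g := fun u => ph r (w * u) ^ k) (hd.pow k) (by simp [ph])
  have e : (fun u => ‖ph r (w * u)‖ ^ (2 * k)) = fun u => ‖ph r (w * u) ^ k‖ ^ 2 := by
    ext u; rw [norm_pow, ← pow_mul, mul_comm k 2]
  rw [e, h1]
  have hc := hd.continuousOn
  have h2 : circleAverage (fun u => ‖ph r (w * u) ^ k - 1‖ ^ 2) 0 1 ≤
      circleAverage (fun u => (k * R ^ k) ^ 2 * ‖ph r (w * u) - 1‖ ^ 2) 0 1 := by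
    apply circleAverage_mono (cint (by fun_prop)) (cint (by fun_prop))
    intro u hu
    have h5 : ‖u‖ = 1 := by simpa using hu
    have h6 : ‖w * u‖ ≤ r := by rw [norm_mul, h5, hw]; nlinarith
    have h7 := pow_sub_one_le hR1 ((ph_le hr hr1 h6).trans hR) k
    beta_reduce
    rw [← mul_pow]
    exact pow_le_pow_left₀ (norm_nonneg _) h7 2
  rw [avg_cmul, ph_sub hr hw1, hw] at h2
  have h3 : (r * t) ^ 2 * (1 / r ^ 2 - 1) ^ 2 / (1 - (r * t) ^ 2) ≤
      4 * R ^ 2 * ((1 - r) ^ 2 / (1 - t)) := by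
    have a1 : 1 - t ≤ 1 - (r * t) ^ 2 := by
      have : r * t ≤ t := by nlinarith
      have : (r * t) ^ 2 ≤ t * 1 := by
        rw [sq]; apply mul_le_mul this (by nlinarith) (by positivity) ht
      linarith
    have a2 : (r * t) ^ 2 * (1 / r ^ 2 - 1) ^ 2 = (t * (1 / r) * (1 + r)) ^ 2 * (1 - r) ^ 2 := by
      field_simp; ring
    have a3 : t * (1 / r) * (1 + r) ≤ 2 * R := by
      have : t * (1 / r) ≤ 1 * R := mul_le_mul ht1.le hR (by positivity) zero_le_one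
      have : 0 ≤ t * (1 / r) := by positivity
      nlinarith
    have a4 : (t * (1 / r) * (1 + r)) ^ 2 ≤ (2 * R) ^ 2 := pow_le_pow_left₀ (by positivity) a3 2
    rw [a2, ← mul_div_assoc (4 * R ^ 2)]
    apply div_le_div₀ (by positivity) _ (by linarith) a1
    nlinarith [sq_nonneg (1 - r)]
  have h4 := mul_le_mul_of_nonneg_left h3 (sq_nonneg ((k : ℝ) * R ^ k))
  have e2 : ((k : ℝ) * R ^ k) ^ 2 * (4 * R ^ 2 * ((1 - r) ^ 2 / (1 - t))) =
      4 * (k * R ^ (k + 1)) ^ 2 * ((1 - r) ^ 2 / (1 - t)) := by ring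
  linarith

lemma U2 {r t : ℝ} (hr : 0 < r) (hr1 : r < 1) (ht : 0 ≤ t) (ht1 : t < 1)
    {w : ℂ} (hw : ‖w‖ = r * t) (k : ℕ) :
    circleAverage (fun u => ‖ph r (w * u)‖ ^ (2 * (k + 1))) 0 1 ≤
      (1 / r) ^ (2 * (k + 1)) * exp (-(min (1 - r) (1 - t) / 2)) := by
  have hw1 : ‖w‖ < 1 := by rw [hw]; nlinarith
  have hd := ph_diff r hw1
  have hc := hd.continuousOn
  have h1 := avg_sq hd (by simp [ph])
  rw [ph_sub hr hw1, hw] at h1
  have h2 : circleAverage (fun u => ‖ph r (w * u)‖ ^ (2 * (k + 1))) 0 1 ≤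
      circleAverage (fun u => (1 / r) ^ (2 * k) * ‖ph r (w * u)‖ ^ 2) 0 1 := by
    apply circleAverage_mono (cint (by fun_prop)) (cint (by fun_prop))
    intro u hu
    have h5 : ‖u‖ = 1 := by simpa using hu
    have h6 : ‖w * u‖ ≤ r := by rw [norm_mul, h5, hw]; nlinarith
    beta_reduce
    rw [mul_add, pow_add]
    exact mul_le_mul_of_nonneg_right (pow_le_pow_left₀ (norm_nonneg _) (ph_le hr hr1 h6) _)
      (by positivity)
  rw [avg_cmul, h1] at h2
  refine h2.trans ?_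
  rw [mul_add 2, pow_add, mul_assoc]
  apply mul_le_mul_of_nonneg_left _ (by positivity)
  have a0 : r * t < 1 := by nlinarith
  have a1 : 0 < 1 - (r * t) ^ 2 := by nlinarith [mul_nonneg hr.le ht]
  have e : 1 + (r * t) ^ 2 * (1 / r ^ 2 - 1) ^ 2 / (1 - (r * t) ^ 2) =
      (1 / r) ^ (2 * 1) * (1 - (1 - r ^ 2) * (1 - t ^ 2) / (1 - (r * t) ^ 2)) := by
    obtain ⟨D, hD⟩ : ∃ D, D = 1 - (r * t) ^ 2 := ⟨_, rfl⟩
    rw [← hD] at a1 ⊢
    rw [mul_one]
    field_simp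
    rw [hD]; ring
  rw [e]
  apply mul_le_mul_of_nonneg_left _ (by positivity)
  refine le_trans ?_ (add_one_le_exp _)
  have a2 : min (1 - r) (1 - t) / 2 ≤ (1 - r ^ 2) * (1 - t ^ 2) / (1 - (r * t) ^ 2) := by
    rw [le_div_iff₀ a1]
    obtain ⟨m, hm⟩ : ∃ m, m = min (1 - r) (1 - t) := ⟨_, rfl⟩
    have b1 : m ≤ 1 - r ^ 2 := by rw [hm]; nlinarith [min_le_left (1 - r) (1 - t)]
    have b2 : m ≤ 1 - t ^ 2 := by rw [hm]; nlinarith [min_le_right (1 - r) (1 - t)]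
    have b3 : 0 ≤ m := by rw [hm]; exact le_min (by linarith) (by linarith)
    rw [← hm]
    have b4 : 0 ≤ 1 - r ^ 2 := by nlinarith
    have b5 : 0 ≤ 1 - t ^ 2 := by nlinarith
    have b6 : 1 - (r * t) ^ 2 ≤ (1 - r ^ 2) + (1 - t ^ 2) := by
      have := mul_nonneg b4 b5
      nlinarith
    nlinarith [mul_le_mul_of_nonneg_left b1 b5, mul_le_mul_of_nonneg_left b2 b4,
      mul_le_mul_of_nonneg_left b6 b3]
  linarith

lemma cont_pl (r : ℝ) : Continuous fun s : ℝ => posLog ((1 - s) / r) :=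
  continuous_posLog.comp (by fun_prop)

lemma pl_ge {r s : ℝ} (hr : 0 < r) (hs0 : 0 ≤ s) (hs : s < 1) :
    1 - r - s ≤ posLog ((1 - s) / r) := by
  by_cases h : 1 - r - s ≤ 0
  · exact h.trans posLog_nonneg
  · have h1 : 0 < (1 - s) / r := div_pos (by linarith) hr
    have h2 := one_sub_inv_le_log_of_pos h1
    have h3 : 1 - r - s ≤ 1 - ((1 - s) / r)⁻¹ := by
      rw [inv_div]
      have : r / (1 - s) ≤ r + s := by
        rw [div_le_iff₀ (by linarith)]; nlinarith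
      linarith
    rw [posLog_apply]
    exact h3.trans (h2.trans (le_max_right _ _))

lemma lam_nonneg (r : ℝ) {c : ℝ} (hc : 0 ≤ c) : 0 ≤ lam r c :=
  div_nonneg (intervalIntegral.integral_nonneg hc fun _ _ => posLog_nonneg) hc

lemma int_ge {r b : ℝ} (hr : 0 < r) (hb0 : 0 ≤ b) (hb : b < 1) :
    (1 - r) * b - b ^ 2 / 2 ≤ ∫ s in (0 : ℝ)..b, posLog ((1 - s) / r) := by
  have h1 : ∫ s in (0 : ℝ)..b, (1 - r - s) = (1 - r) * b - b ^ 2 / 2 := by
    rw [intervalIntegral.integral_sub (by simp) (by simp)]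
    simp; ring
  rw [← h1]
  apply intervalIntegral.integral_mono_on hb0 (Continuous.intervalIntegrable (by fun_prop) _ _)
    ((cont_pl r).intervalIntegrable _ _)
  intro s hs
  exact pl_ge hr hs.1 (hs.2.trans_lt hb)

lemma lamA {r c : ℝ} (hr : 0 < r) (hr1 : r < 1) (hc : 1 - r ≤ c) :
    (1 - r) ^ 2 / (2 * c) ≤ lam r c := by
  have hc0 : 0 < c := by linarith
  have h1 := int_ge (b := 1 - r) hr (by linarith) (by linarith)
  have h2 : ∫ s in (0 : ℝ)..(1 - r), posLog ((1 - s) / r) ≤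
      ∫ s in (0 : ℝ)..c, posLog ((1 - s) / r) :=
    intervalIntegral.integral_mono_interval le_rfl (by linarith) hc
      (Eventually.of_forall fun _ => posLog_nonneg) ((cont_pl r).intervalIntegrable _ _)
  unfold lam
  rw [← div_div]
  apply div_le_div_of_nonneg_right _ hc0.le
  nlinarith

lemma lamB {r c : ℝ} (hr : 0 < r) (hc0 : 0 < c) (hc : c < 1) : 1 - r - c / 2 ≤ lam r c := by
  have h1 := int_ge hr hc0.le hc
  unfold lam
  rw [le_div_iff₀ hc0]
  nlinarith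

lemma lamC {r c : ℝ} (hr : 0 < r) (hc0 : 0 < c) (hc : c ≤ 1 / 2) :
    log (1 / r) - 2 * c ≤ lam r c := by
  have h1 : ∫ _ in (0 : ℝ)..c, (log (1 / r) - 2 * c) ≤ ∫ s in (0 : ℝ)..c, posLog ((1 - s) / r) := by
    apply intervalIntegral.integral_mono_on hc0.le (by simp) ((cont_pl r).intervalIntegrable _ _)
    intro s hs
    have a1 : 0 < 1 - s := by linarith [hs.2]
    have a2 := one_sub_inv_le_log_of_pos a1
    have a3 : (1 - s)⁻¹ ≤ 1 + 2 * c := by
      rw [inv_le_comm₀ a1 (by linarith), ← one_div, div_le_iff₀ (by linarith)]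
      nlinarith [hs.1, hs.2]
    rw [posLog_apply]
    refine le_trans ?_ (le_max_right _ _)
    rw [log_div a1.ne' hr.ne', log_div one_ne_zero hr.ne', log_one]
    linarith
  unfold lam
  rw [le_div_iff₀ hc0]
  simp only [intervalIntegral.integral_const, sub_zero, smul_eq_mul] at h1
  linarith

lemma main_even {r0 : ℝ} (h0 : 0 < r0) (k : ℕ) : ∃ K : ℝ, 2 ≤ K ∧ ∀ r t : ℝ, r0 ≤ r → r < 1 →
    0 ≤ t → t < 1 → ∀ w : ℂ, ‖w‖ = r * t →
    circleAverage (fun u => ‖ph r (w * u)‖ ^ (2 * (k + 1))) 0 1 ≤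
      exp ((2 * (k + 1) : ℕ) * lam r ((1 - t) / K)) := by
  obtain ⟨C, hC1, hC⟩ : ∃ C : ℝ, 1 ≤ C ∧
      4 * (((k + 1 : ℕ) : ℝ) * (1 / r0) ^ (k + 1 + 1)) ^ 2 ≤ C :=
    ⟨_, le_max_left _ _, le_max_right _ _⟩
  obtain ⟨m, hm⟩ : ∃ m : ℝ, m = ((2 * (k + 1) : ℕ) : ℝ) := ⟨_, rfl⟩
  have hm1 : 1 ≤ m := by rw [hm]; exact_mod_cast (by omega)
  have hK : 8 ≤ 8 * m * C := by nlinarith
  refine ⟨8 * m * C, by linarith, fun r t hr0 hr1 ht ht1 w hw => ?_⟩
  rw [← hm]
  have hr : 0 < r := h0.trans_le hr0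
  obtain ⟨δ, hδ⟩ : ∃ δ, δ = 1 - t := ⟨_, rfl⟩
  obtain ⟨η, hη⟩ : ∃ η, η = 1 - r := ⟨_, rfl⟩
  have hδ0 : 0 < δ := by linarith
  have hδ1 : δ ≤ 1 := by linarith
  have hη0 : 0 < η := by linarith
  obtain ⟨c, hc⟩ : ∃ c, c = δ / (8 * m * C) := ⟨_, rfl⟩
  have hc0 : 0 < c := by rw [hc]; positivity
  have hcδ : δ = 8 * m * C * c := by rw [hc]; field_simp
  have hc1 : c ≤ 1 / 2 := by nlinarith
  rw [← hδ, ← hc]
  have hl := lam_nonneg r hc0.le
  by_cases h : η ≤ δ / (2 * C)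
  · have h1 := U1 hr hr1 ht ht1 (one_div_le_one_div_of_le h0 hr0) hw (k + 1)
    rw [← hδ, ← hη] at h1
    have h2 : C * (η ^ 2 / δ) ≤ lam r c := by
      by_cases h' : η ≤ c
      · refine le_trans ?_ (lamA hr hr1 (by linarith))
        rw [← hη, ← mul_div_assoc, div_le_div_iff₀ hδ0 (by positivity), hcδ]
        have : 0 ≤ C * η ^ 2 * c := by positivity
        nlinarith
      · refine le_trans ?_ (lamB hr hc0 (by linarith))
        rw [← hη, ← mul_div_assoc, div_le_iff₀ hδ0]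
        rw [le_div_iff₀ (by positivity)] at h
        nlinarith
    refine h1.trans (le_trans ?_ (add_one_le_exp _))
    have h3 := mul_le_mul_of_nonneg_right hC (show 0 ≤ η ^ 2 / δ by positivity)
    nlinarith
  · refine (U2 hr hr1 ht ht1 hw k).trans ?_
    have e : (1 / r) ^ (2 * (k + 1)) = exp (m * log (1 / r)) := by
      rw [hm, exp_nat_mul, exp_log (by positivity)]
    rw [e, ← exp_add, exp_le_exp, ← hδ, ← hη]
    have h1 := lamC hr hc0 hc1
    have h2 : δ / (2 * C) ≤ min η δ := by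
      refine le_min (not_le.1 h).le ?_
      rw [div_le_iff₀ (by positivity)]; nlinarith
    have h3 : δ / (2 * C) = 4 * m * c := by rw [hcδ]; field_simp; ring
    nlinarith

theorem main_est {r0 p : ℝ} (h0 : 0 < r0) (hp : 0 < p) : ∃ K : ℝ, 2 ≤ K ∧ ∀ r t : ℝ, r0 ≤ r →
    r < 1 → 0 ≤ t → t < 1 → ∀ w : ℂ, ‖w‖ = r * t →
    circleAverage (fun u => ‖ph r (w * u)‖ ^ p) 0 1 ≤ exp (p * lam r ((1 - t) / K)) := by
  obtain ⟨k, hk⟩ := exists_nat_ge p
  obtain ⟨K, hK, H⟩ := main_even h0 k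
  refine ⟨K, hK, fun r t hr0 hr1 ht ht1 w hw => ?_⟩
  have h1 := H r t hr0 hr1 ht ht1 w hw
  have hr : 0 < r := h0.trans_le hr0
  have hw1 : ‖w‖ < 1 := by rw [hw]; nlinarith
  have hc := (ph_diff r hw1).continuousOn
  obtain ⟨n, hn⟩ : ∃ n : ℕ, n = 2 * (k + 1) := ⟨_, rfl⟩
  rw [← hn] at h1
  have hn0 : p ≤ n := by rw [hn]; push_cast; linarith [Nat.cast_nonneg (α := ℝ) k]
  have hn1 : (0 : ℝ) < n := hp.trans_le hn0
  obtain ⟨L, hL⟩ : ∃ L, L = lam r ((1 - t) / K) := ⟨_, rfl⟩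
  rw [← hL] at h1 ⊢
  have h2 : circleAverage (fun u => ‖ph r (w * u)‖ ^ p) 0 1 ≤ circleAverage (fun u =>
      exp (p * L) * (1 - p / n) + (exp (p * L) * (p / n) / exp (n * L)) * ‖ph r (w * u)‖ ^ n)
      0 1 := by
    apply circleAverage_mono (cint (hc.norm.rpow_const fun _ _ => Or.inr hp.le))
      (cint (by fun_prop))
    intro u _
    beta_reduce
    obtain ⟨x, hx⟩ : ∃ x, x = ‖ph r (w * u)‖ := ⟨_, rfl⟩
    have hx0 : 0 ≤ x := by rw [hx]; positivity
    rw [← hx]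
    have a1 := rpow_one_add_le_one_add_mul_self (s := x ^ n / exp (n * L) - 1)
      (by have : 0 ≤ x ^ n / exp (n * L) := by positivity
          linarith) (p := p / n) (by positivity) (by rw [div_le_one hn1]; exact hn0)
    have a2 : (1 + (x ^ n / exp (n * L) - 1)) ^ (p / n) = x ^ p / exp (p * L) := by
      rw [add_sub_cancel, div_rpow (by positivity) (by positivity), ← rpow_natCast,
        ← rpow_mul hx0, ← exp_mul]
      congr 2 <;> field_simp
    rw [a2, div_le_iff₀ (exp_pos _)] at a1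
    refine a1.trans (le_of_eq ?_)
    ring
  rw [circleAverage_fun_add (circleIntegrable_const _ _ _) (cint (by fun_prop)),
    circleAverage_const, avg_cmul] at h2
  refine h2.trans ?_
  have h3 := mul_le_mul_of_nonneg_left h1
    (show 0 ≤ exp (p * L) * (p / n) / exp (n * L) by positivity)
  rw [div_mul_cancel₀ _ (exp_pos _).ne'] at h3
  linarith

end Pool.Agent.H.MP_f69e58_an
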