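import Pool.Agent.H.MP_f69e58_an.A
import Pool.Agent.H.MP_0e9c6a_an.Jen
import Pool.Agent.Lib.helper9.RMT

set_option autoImplicit false
set_option maxHeartbeats 400000
open MeasureTheory Set Filter Topology Real Metric ENNReal

namespace Pool.Agent.H.MP_f69e58_an

lemma step (μ : Measure ℂ) [SFinite μ] {u : ℝ → ℂ → ℝ≥0∞} (hu : Measurable (Function.uncurry u))
    (h1 : ∀ᵐ z ∂μ, ∫⁻ θ in Ico 0 (2 * π), u θ z ≤ ENNReal.ofReal (2 * π))
    {W : ℂ → ℝ≥0∞} (hW : Measurable W) :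
    ∃ θ ∈ Ico 0 (2 * π), ∫⁻ z, W z * u θ z ∂μ ≤ ∫⁻ z, W z ∂μ := by
  have hm : Measurable (Function.uncurry fun θ z => W z * u θ z) :=
    (hW.comp measurable_snd).mul hu
  have hv : volume (Ico 0 (2 * π)) = ENNReal.ofReal (2 * π) := by simp
  have hpos : ENNReal.ofReal (2 * π) ≠ 0 := by
    rw [Ne, ENNReal.ofReal_eq_zero, not_le]; positivity
  obtain ⟨θ, hθ, h⟩ := exists_le_setLAverage (μ := volume) (s := Ico 0 (2 * π))
    (f := fun θ => ∫⁻ z, W z * u θ z ∂μ) (by rw [hv]; exact hpos) (by rw [hv]; exact ofReal_ne_top)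
    (hm.lintegral_prod_right').aemeasurable
  refine ⟨θ, hθ, h.trans ?_⟩
  rw [setLAverage_eq, hv, lintegral_lintegral_swap hm.aemeasurable]
  apply ENNReal.div_le_of_le_mul
  rw [← lintegral_mul_const _ hW]
  apply lintegral_mono_ae
  filter_upwards [h1] with z hz
  rw [lintegral_const_mul _ (show Measurable fun θ => u θ z from hu.of_uncurry_right)]
  gcongr

lemma select (μ : Measure ℂ) [SFinite μ] {u : ℕ → ℝ → ℂ → ℝ≥0∞}
    (hu : ∀ j, Measurable (Function.uncurry (u j)))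
    (h1 : ∀ j, ∀ᵐ z ∂μ, ∫⁻ θ in Ico 0 (2 * π), u j θ z ≤ ENNReal.ofReal (2 * π))
    {W : ℂ → ℝ≥0∞} (hW : Measurable W) :
    ∃ θ : ℕ → ℝ, (∀ j, θ j ∈ Ico 0 (2 * π)) ∧
      ∀ n, ∫⁻ z, W z * ∏ j ∈ Finset.range n, u j (θ j) z ∂μ ≤ ∫⁻ z, W z ∂μ := by
  choose st hst1 hst2 using fun j (V : {V : ℂ → ℝ≥0∞ // Measurable V}) =>
    step μ (hu j) (h1 j) V.2
  let V : ℕ → {V : ℂ → ℝ≥0∞ // Measurable V} := fun n =>
    Nat.rec ⟨W, hW⟩ (fun j V => ⟨fun z => V.1 z * u j (st j V) z,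
      V.2.mul (hu j).of_uncurry_left⟩) n
  have hV : ∀ n z, (V (n + 1)).1 z = (V n).1 z * u n (st n (V n)) z := fun _ _ => rfl
  refine ⟨fun j => st j (V j), fun j => hst1 _ _, fun n => ?_⟩
  have e : ∀ n z, (V n).1 z = W z * ∏ j ∈ Finset.range n, u j (st j (V j)) z := by
    intro n z
    induction n with
    | zero => simp [V]
    | succ n ih => rw [hV, ih, Finset.prod_range_succ, mul_assoc]
  simp only [← e]
  induction n with
  | zero => exact le_rfl
  | succ n ih =>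
    simp only [hV]
    exact (hst2 n (V n)).trans ih

lemma lint_circle {f : ℂ → ℝ} (hc : ContinuousOn f (closedBall 0 1)) (h0 : ∀ u, 0 ≤ f u) :
    ∫⁻ θ in Ico 0 (2 * π), ENNReal.ofReal (f (circleMap 0 1 θ)) =
      ENNReal.ofReal (2 * π) * ENNReal.ofReal (circleAverage f 0 1) := by
  have hi : IntegrableOn (fun θ => f (circleMap 0 1 θ)) (Ico 0 (2 * π)) := by
    have := cint hc
    rw [CircleIntegrable, intervalIntegrable_iff_integrableOn_Ico_of_le (by positivity)] at this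
    exact this
  rw [← ofReal_integral_eq_lintegral_ofReal hi (Eventually.of_forall fun _ => h0 _),
    ← ENNReal.ofReal_mul (by positivity), circleAverage_def,
    intervalIntegral.integral_of_le (by positivity), integral_Ico_eq_integral_Ioo,
    integral_Ioc_eq_integral_Ioo, smul_eq_mul, ← mul_assoc, mul_inv_cancel₀ (by positivity),
    one_mul]

lemma submean {F : ℂ → ℂ} (hm : Measurable F) {z0 : ℂ} {ρ p : ℝ} (hp : 0 < p)
    (hF : AnalyticOnNhd ℂ F (ball z0 ρ)) :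
    ENNReal.ofReal (p * log ‖F z0‖) * volume (ball (0 : ℂ) ρ) ≤
      ∫⁻ z in ball z0 ρ, ENNReal.ofReal (‖F z‖ ^ p) := by
  obtain ⟨h, hh⟩ : ∃ h : ℂ → ℝ≥0∞, h = fun z => ENNReal.ofReal (‖F z‖ ^ p) := ⟨_, rfl⟩
  have hhm : Measurable h := by rw [hh]; fun_prop
  have h1 : ∀ θ : ℝ, ∫⁻ z in ball z0 ρ, h z = ∫⁻ z in ball 0 ρ, h (z0 + z * circleMap 0 1 θ) := by
    intro θ
    have mp : MeasurePreserving (fun z : ℂ => z0 + rotation (Circle.exp θ) z) :=
      (measurePreserving_add_left volume z0).comp (rotation (Circle.exp θ)).measurePreserving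
    rw [← mp.setLIntegral_comp_preimage measurableSet_ball hhm]
    have e : (fun z : ℂ => z0 + rotation (Circle.exp θ) z) ⁻¹' ball z0 ρ = ball 0 ρ := by
      ext z; simp [mem_ball, dist_eq_norm]
    rw [e]
    congr 1
    ext z
    simp [rotation_apply, circleMap, mul_comm]
  have hv : volume (Ico 0 (2 * π)) = ENNReal.ofReal (2 * π) := by simp
  have hpos : ENNReal.ofReal (2 * π) ≠ 0 := by
    rw [Ne, ENNReal.ofReal_eq_zero, not_le]; positivity
  have h2 : ENNReal.ofReal (2 * π) * ∫⁻ z in ball z0 ρ, h z =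
      ∫⁻ z in ball 0 ρ, ∫⁻ θ in Ico 0 (2 * π), h (z0 + z * circleMap 0 1 θ) := by
    rw [lintegral_lintegral_swap]
    · simp only [← h1]
      rw [setLIntegral_const, hv, mul_comm]
    · apply Measurable.aemeasurable
      apply hhm.comp
      have : Continuous fun q : ℂ × ℝ => z0 + q.1 * circleMap 0 1 q.2 := by fun_prop
      exact this.measurable
  have e0 : (∫⁻ z in ball z0 ρ, ENNReal.ofReal (‖F z‖ ^ p)) = ∫⁻ z in ball z0 ρ, h z := by rw [hh]
  rw [e0, ← ENNReal.mul_le_mul_iff_right hpos ofReal_ne_top, h2, ← mul_assoc,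
    ← setLIntegral_const]
  apply setLIntegral_mono' measurableSet_ball
  intro z hz
  have hg : AnalyticOnNhd ℂ (fun u => F (z0 + z * u)) (closedBall 0 1) := by
    intro u hu
    have a1 : z0 + z * u ∈ ball z0 ρ := by
      rw [mem_ball_zero_iff] at hz
      rw [mem_closedBall_zero_iff] at hu
      rw [mem_ball, dist_eq_norm, add_sub_cancel_left, norm_mul]
      nlinarith [norm_nonneg z, norm_nonneg u]
    exact AnalyticAt.comp (f := fun u => z0 + z * u) (hF _ a1) (by fun_prop)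
  have hc := hg.continuousOn
  have hc2 : ContinuousOn (fun u => ‖F (z0 + z * u)‖ ^ p) (closedBall 0 1) :=
    hc.norm.rpow_const fun _ _ => Or.inr hp.le
  have h3 := lint_circle hc2 (fun u => by positivity)
  rw [hh]
  beta_reduce
  rw [h3]
  gcongr
  have h4 := Pool.Agent.H.MP_0e9c6a_an.jensen_disc one_pos hg
  rw [mul_zero, add_zero] at h4
  refine (mul_le_mul_of_nonneg_left h4 hp.le).trans ?_
  rw [← avg_cmul]
  apply circleAverage_mono _ (cint hc2)
  · intro u _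
    beta_reduce
    rw [posLog_apply, ← le_div_iff₀' hp]
    exact max_le (by positivity) (log_le_rpow_div (norm_nonneg _) hp)
  · exact cint (continuousOn_const.mul (continuous_posLog.comp_continuousOn hc.norm))

lemma locbd {p α : ℝ} (hp : 0 < p) {C : ℝ≥0∞} (hC : C ≠ ⊤) {ρ : ℝ} (h0 : 0 < ρ) (h1 : ρ < 1) :
    ∃ M : ℝ, ∀ F : ℂ → ℂ, Measurable F → DifferentiableOn ℂ F (ball 0 1) →
      ∫⁻ z in ball (0 : ℂ) 1, ENNReal.ofReal ((1 - ‖z‖ ^ 2) ^ α * ‖F z‖ ^ p) ≤ C →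
      ∀ z ∈ ball (0 : ℂ) ρ, ‖F z‖ ≤ M := by
  obtain ⟨x0, hx0⟩ : ∃ x0, x0 = 1 - ((1 + ρ) / 2) ^ 2 := ⟨_, rfl⟩
  have hx1 : 0 < x0 := by rw [hx0]; nlinarith
  obtain ⟨m, hm⟩ : ∃ m, m = min 1 (x0 ^ α) := ⟨_, rfl⟩
  have hm0 : 0 < m := by rw [hm]; exact lt_min one_pos (rpow_pos_of_pos hx1 _)
  obtain ⟨D, hD⟩ : ∃ D, D = ENNReal.ofReal m * volume (ball (0 : ℂ) ((1 - ρ) / 2)) := ⟨_, rfl⟩
  have hD0 : D ≠ 0 := by
    rw [hD]
    exact mul_ne_zero (by rw [Ne, ENNReal.ofReal_eq_zero, not_le]; exact hm0)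
      (measure_ball_pos _ _ (by linarith)).ne'
  have hD1 : D ≠ ⊤ := by rw [hD]; exact mul_ne_top ofReal_ne_top measure_ball_lt_top.ne
  refine ⟨exp ((C / D).toReal / p), fun F hFm hF hI z0 hz0 => ?_⟩
  rw [mem_ball_zero_iff] at hz0
  have hs : ∀ z ∈ ball z0 ((1 - ρ) / 2), ‖z‖ ≤ (1 + ρ) / 2 := by
    intro z hz
    rw [mem_ball, dist_eq_norm] at hz
    linarith [norm_sub_norm_le z z0]
  have hsub : ball z0 ((1 - ρ) / 2) ⊆ ball 0 1 := fun z hz =>
    mem_ball_zero_iff.2 (by linarith [hs z hz])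
  have h2 := submean hFm hp ((hF.analyticOnNhd isOpen_ball).mono hsub)
  have h3 : ENNReal.ofReal m * ∫⁻ z in ball z0 ((1 - ρ) / 2), ENNReal.ofReal (‖F z‖ ^ p) ≤ C := by
    rw [← lintegral_const_mul' _ _ ofReal_ne_top]
    refine le_trans ?_ ((lintegral_mono_set hsub).trans hI)
    apply setLIntegral_mono' measurableSet_ball
    intro z hz
    rw [← ENNReal.ofReal_mul hm0.le]
    apply ENNReal.ofReal_le_ofReal
    apply mul_le_mul_of_nonneg_right _ (by positivity)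
    have a1 : x0 ≤ 1 - ‖z‖ ^ 2 := by
      rw [hx0]; linarith [pow_le_pow_left₀ (norm_nonneg z) (hs z hz) 2]
    rw [hm]
    rcases le_total 0 α with ha | ha
    · exact (min_le_right _ _).trans (rpow_le_rpow hx1.le a1 ha)
    · exact (min_le_left _ _).trans (one_le_rpow_of_pos_of_le_one_of_nonpos (by linarith)
        (by nlinarith [norm_nonneg z]) ha)
  have h4 : ENNReal.ofReal (p * log ‖F z0‖) ≤ C / D := by
    rw [ENNReal.le_div_iff_mul_le (Or.inl hD0) (Or.inl hD1), hD, mul_left_comm]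
    refine le_trans ?_ h3
    gcongr
  rw [ENNReal.ofReal_le_iff_le_toReal (ENNReal.div_ne_top hC hD0), ← le_div_iff₀' hp] at h4
  by_cases hz : ‖F z0‖ = 0
  · rw [hz]; positivity
  · exact (log_le_iff_le_exp (lt_of_le_of_ne (norm_nonneg _) (Ne.symm hz))).1 h4

theorem limit {p α : ℝ} (hp : 0 < p) {C : ℝ≥0∞} (hC : C ≠ ⊤) {F : ℕ → ℂ → ℂ}
    (hm : ∀ n, Measurable (F n)) (hF : ∀ n, DifferentiableOn ℂ (F n) (ball 0 1))
    (hI : ∀ n, ∫⁻ z in ball (0 : ℂ) 1, ENNReal.ofReal ((1 - ‖z‖ ^ 2) ^ α * ‖F n z‖ ^ p) ≤ C)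
    (h0 : ∀ n, F n 0 = 1) {a : ℕ → ℂ} (ha : ∀ j, ‖a j‖ < 1) (hz : ∀ j n, j < n → F n (a j) = 0) :
    ∃ f : ℂ → ℂ, DifferentiableOn ℂ f (ball 0 1) ∧
      IntegrableOn (fun z : ℂ => (1 - ‖z‖ ^ 2) ^ α * ‖f z‖ ^ p) (ball 0 1) ∧
      (∃ z ∈ ball (0 : ℂ) 1, f z ≠ 0) ∧ ∀ j, f (a j) = 0 := by
  obtain ⟨f, hf⟩ : ∃ f, TendstoLocallyUniformlyOn F f (hyperfilter ℕ) (ball 0 1) := by
    have h1 : ∀ ρ : Ioo (0 : ℝ) 1, ∃ ψ,
        TendstoLocallyUniformlyOn F ψ (hyperfilter ℕ) (ball 0 ρ) := fun ρ => by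
      obtain ⟨M, hM⟩ := locbd (α := α) hp hC ρ.2.1 ρ.2.2
      exact Pool.Agent.Lib.helper9.RMT.montel _ isOpen_ball (M := M)
        (fun k => (hF k).mono (ball_subset_ball ρ.2.2.le)) (fun k => hM _ (hm k) (hF k) (hI k))
    choose ψ hψ using h1
    refine ⟨fun z => limUnder (hyperfilter ℕ) (fun n => F n z), ?_⟩
    have h2 : ball (0 : ℂ) 1 = ⋃ ρ : Ioo (0 : ℝ) 1, ball 0 ρ := by
      ext z
      simp only [mem_ball_zero_iff, mem_iUnion]
      refine ⟨fun hz => ⟨⟨(1 + ‖z‖) / 2, by positivity, by linarith⟩, by simp only; linarith⟩,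
        fun ⟨ρ, h⟩ => h.trans ρ.2.2⟩
    rw [h2]
    refine tendstoLocallyUniformlyOn_iUnion (fun _ => isOpen_ball) fun ρ => (hψ ρ).congr_right ?_
    intro z hz
    exact ((hψ ρ).tendsto_at hz).limUnder_eq.symm
  have hd : DifferentiableOn ℂ f (ball 0 1) :=
    hf.differentiableOn (Eventually.of_forall hF) isOpen_ball
  refine ⟨f, hd, ?_, ⟨0, mem_ball_self one_pos, ?_⟩, fun j => ?_⟩
  · have hw : ∀ z ∈ ball (0 : ℂ) 1, 0 < 1 - ‖z‖ ^ 2 := fun z hz => by
      rw [mem_ball_zero_iff] at hz; nlinarith [norm_nonneg z]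
    have h1 : ∀ m : ℕ, ∃ n, ∀ z ∈ closedBall (0 : ℂ) (1 - 1 / (m + 1 : ℝ)),
        dist (f z) (F n z) < 1 / (m + 1 : ℝ) := by
      intro m
      have hpos : 0 < 1 / (m + 1 : ℝ) := by positivity
      have hu := (tendstoLocallyUniformlyOn_iff_forall_isCompact isOpen_ball).1 hf _
        (closedBall_subset_ball (show 1 - 1 / (m + 1 : ℝ) < 1 by linarith)) (isCompact_closedBall _ _)
      exact (Metric.tendstoUniformlyOn_iff.1 hu _ hpos).exists
    choose n hn using h1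
    have h2 : ∀ z ∈ ball (0 : ℂ) 1, Tendsto (fun m => F (n m) z) atTop (𝓝 (f z)) := by
      intro z hz
      rw [mem_ball_zero_iff] at hz
      rw [tendsto_iff_dist_tendsto_zero]
      have t0 : Tendsto (fun m : ℕ => 1 / (m + 1 : ℝ)) atTop (𝓝 0) :=
        tendsto_one_div_add_atTop_nhds_zero_nat
      refine squeeze_zero' (Eventually.of_forall fun _ => dist_nonneg) ?_ t0
      filter_upwards [t0.eventually (gt_mem_nhds (show 0 < 1 - ‖z‖ by linarith))] with m hm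
      rw [dist_comm]
      exact (hn m z (mem_closedBall_zero_iff.2 (by linarith))).le
    refine ⟨ContinuousOn.aestronglyMeasurable ?_ measurableSet_ball, ?_⟩
    · exact (ContinuousOn.rpow_const (by fun_prop) fun z hz => Or.inl (hw z hz).ne').mul
        (hd.continuousOn.norm.rpow_const fun _ _ => Or.inr hp.le)
    · rw [hasFiniteIntegral_iff_ofReal]
      · have h3 := lintegral_liminf_le (μ := volume.restrict (ball (0 : ℂ) 1)) (u := atTop)
          (f := fun m z => ENNReal.ofReal ((1 - ‖z‖ ^ 2) ^ α * ‖F (n m) z‖ ^ p))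
          (fun m => by have := hm (n m); fun_prop)
        have h4 : ∫⁻ z in ball (0 : ℂ) 1, ENNReal.ofReal ((1 - ‖z‖ ^ 2) ^ α * ‖f z‖ ^ p) =
            ∫⁻ z in ball (0 : ℂ) 1, liminf (fun m =>
              ENNReal.ofReal ((1 - ‖z‖ ^ 2) ^ α * ‖F (n m) z‖ ^ p)) atTop := by
          apply setLIntegral_congr_fun measurableSet_ball
          intro z hz
          exact (ENNReal.tendsto_ofReal (((h2 z hz).norm.rpow_const
            (Or.inr hp.le)).const_mul _)).liminf_eq.symm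
        rw [h4]
        refine (h3.trans ?_).trans_lt hC.lt_top
        exact liminf_le_of_frequently_le' (Frequently.of_forall fun m => hI _)
      · filter_upwards [ae_restrict_mem measurableSet_ball] with z hz
        have := hw z hz
        positivity
  · have : f 0 = 1 := by
      refine tendsto_nhds_unique (hf.tendsto_at (mem_ball_self one_pos)) ?_
      simp only [h0]; exact tendsto_const_nhds
    rw [this]; exact one_ne_zero
  · refine tendsto_nhds_unique (hf.tendsto_at (mem_ball_zero_iff.2 (ha j))) ?_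
    refine tendsto_const_nhds.congr' ?_
    filter_upwards [Nat.hyperfilter_le_atTop (eventually_gt_atTop j)] with n hn
    exact (hz j n hn).symm

end Pool.Agent.H.MP_f69e58_an
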