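import Pool.Agent.H.MP_f69e58_an.B

set_option autoImplicit false
set_option maxHeartbeats 400000
open MeasureTheory Set Filter Topology Real Metric ENNReal ComplexConjugate

namespace Pool.Agent.H.MP_f69e58_an

noncomputable def SS (r : ℕ → ℝ) (n : ℕ) (x : ℝ) : ℝ := ∑ j ∈ Finset.range n, posLog (x / r j)

lemma cont_SS (r : ℕ → ℝ) (n : ℕ) : Continuous (SS r n) :=
  continuous_finset_sum _ fun _ _ => continuous_posLog.comp (by fun_prop)

lemma one_int {r x : ℝ} (hr : 0 < r) (hx : r ≤ x) :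
    IntervalIntegrable (fun t => (if r ≤ t then (1 : ℝ) else 0) / t) volume 0 x ∧
      ∫ t in (0 : ℝ)..x, (if r ≤ t then (1 : ℝ) else 0) / t = posLog (x / r) := by
  have i1 : IntervalIntegrable (fun t => (if r ≤ t then (1 : ℝ) else 0) / t) volume 0 r := by
    rw [intervalIntegrable_iff_integrableOn_Ioo_of_le hr.le]
    refine (integrableOn_zero).congr_fun (fun t ht => ?_) measurableSet_Ioo
    simp [not_le.2 ht.2]
  have e1 : ∫ t in (0 : ℝ)..r, (if r ≤ t then (1 : ℝ) else 0) / t = 0 := by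
    rw [intervalIntegral.integral_of_le hr.le, integral_Ioc_eq_integral_Ioo]
    apply setIntegral_eq_zero_of_forall_eq_zero
    intro t ht
    simp [not_le.2 ht.2]
  have h2 : EqOn (fun t => (if r ≤ t then (1 : ℝ) else 0) / t) (fun t => t⁻¹) (uIcc r x) := by
    intro t ht
    rw [uIcc_of_le hx] at ht
    simp [ht.1]
  have i2 : IntervalIntegrable (fun t => (if r ≤ t then (1 : ℝ) else 0) / t) volume r x := by
    apply ContinuousOn.intervalIntegrable
    refine ContinuousOn.congr ?_ h2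
    apply continuousOn_inv₀.mono
    intro t ht
    rw [uIcc_of_le hx] at ht
    exact (hr.trans_le ht.1).ne'
  refine ⟨i1.trans i2, ?_⟩
  rw [← intervalIntegral.integral_add_adjacent_intervals i1 i2, e1, zero_add,
    intervalIntegral.integral_congr h2, integral_inv_of_pos hr (hr.trans_le hx), posLog_eq_log]
  rw [abs_of_pos (div_pos (hr.trans_le hx) hr), one_le_div hr]; exact hx

lemma SS_le {r : ℕ → ℝ} (hr : ∀ j, 0 < r j) (hf : ∀ t : ℝ, t < 1 → {j : ℕ | r j ≤ t}.Finite)
    (n : ℕ) {x : ℝ} (h0 : 0 < x) (h1 : x < 1) :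
    SS r n x ≤ ∫ t in (0 : ℝ)..x, (Nat.card {j : ℕ // r j ≤ t} : ℝ) / t := by
  classical
  obtain ⟨J, hJ⟩ : ∃ J : Finset ℕ, ∀ j, j ∈ J ↔ r j ≤ x :=
    ⟨(hf x h1).toFinset, fun j => by simp⟩
  have e : EqOn (fun t => (Nat.card {j : ℕ // r j ≤ t} : ℝ) / t)
      (fun t => ∑ j ∈ J, (if r j ≤ t then (1 : ℝ) else 0) / t) (uIcc 0 x) := by
    intro t ht
    rw [uIcc_of_le h0.le] at ht
    beta_reduce
    rw [← Finset.sum_div, Finset.sum_boole]
    congr 2
    apply Nat.subtype_card
    intro j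
    simp only [Finset.mem_filter, hJ]
    exact ⟨fun h => h.2, fun h => ⟨h.trans ht.2, h⟩⟩
  rw [intervalIntegral.integral_congr e, intervalIntegral.integral_finset_sum
    (fun j hj => (one_int (hr j) ((hJ j).1 hj)).1),
    Finset.sum_congr rfl (fun j hj => (one_int (hr j) ((hJ j).1 hj)).2)]
  unfold SS
  rw [← Finset.sum_filter_ne_zero]
  apply Finset.sum_le_sum_of_subset_of_nonneg _ (fun _ _ _ => posLog_nonneg)
  intro j hj
  rw [hJ]
  by_contra h
  apply (Finset.mem_filter.1 hj).2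
  rw [posLog_eq_zero_iff, abs_of_pos (div_pos h0 (hr j)), div_le_one (hr j)]
  exact (not_le.1 h).le

lemma radial {g : ℝ → ℝ≥0∞} (hg : Measurable g) (h : ∫⁻ y in Ioo (0 : ℝ) 1, g y ≠ ⊤) :
    ∫⁻ z in ball (0 : ℂ) 1, g ‖z‖ ≠ ⊤ := by
  rw [← lintegral_indicator measurableSet_ball, ← Complex.lintegral_comp_polarCoord_symm]
  have h1 : ∫⁻ q in polarCoord.target, ENNReal.ofReal q.1 •
      (ball (0 : ℂ) 1).indicator (fun z => g ‖z‖) (Complex.polarCoord.symm q) ≤
      ∫⁻ q in polarCoord.target, (Ioo (0 : ℝ) 1).indicator g q.1 * (fun _ => 1) q.2 := by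
    apply setLIntegral_mono' polarCoord.open_target.measurableSet
    intro q hq
    have hq0 : 0 < q.1 := hq.1
    have hn : ‖Complex.polarCoord.symm q‖ = q.1 := by
      rw [Complex.norm_polarCoord_symm, abs_of_pos hq0]
    by_cases hq1 : q.1 < 1
    · rw [indicator_of_mem (mem_ball_zero_iff.2 (by rwa [hn])), indicator_of_mem (mem_Ioo.2 ⟨hq0, hq1⟩), hn,
        smul_eq_mul, mul_one]
      exact mul_le_of_le_one_left' (ENNReal.ofReal_le_one.2 hq1.le)
    · rw [indicator_of_notMem (by rwa [mem_ball_zero_iff, hn])]; simp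
  refine ne_top_of_le_ne_top ?_ h1
  rw [polarCoord_target, Measure.volume_eq_prod, ← Measure.prod_restrict,
    lintegral_prod_mul (hg.indicator measurableSet_Ioo).aemeasurable aemeasurable_const]
  apply mul_ne_top
  · refine ne_top_of_le_ne_top h ?_
    rw [← lintegral_indicator measurableSet_Ioo]
    exact setLIntegral_le_lintegral _ _
  · simp

noncomputable def W0 (K : ℝ) (G : ℝ → ℝ≥0∞) (δ : ℝ) : ℝ≥0∞ :=
  ∫⁻ s in Ioo (0 : ℝ) 1, (if s * K < δ then ENNReal.ofReal (s / δ ^ 2) else 0) * G s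

lemma meas_W0_aux (K : ℝ) {G : ℝ → ℝ≥0∞} (hG : Measurable G) : Measurable (Function.uncurry
    fun δ s : ℝ => (if s * K < δ then ENNReal.ofReal (s / δ ^ 2) else 0) * G s) := by
  apply Measurable.mul _ (hG.comp measurable_snd)
  apply Measurable.ite _ (by fun_prop) measurable_const
  exact measurableSet_lt (by fun_prop) (by fun_prop)

lemma meas_W0 (K : ℝ) {G : ℝ → ℝ≥0∞} (hG : Measurable G) : Measurable (W0 K G) :=
  (meas_W0_aux K hG).lintegral_prod_right'

lemma W0_int {K : ℝ} (hK : 1 ≤ K) {G : ℝ → ℝ≥0∞} (hG : Measurable G) :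
    ∫⁻ δ in Ioo (0 : ℝ) 1, W0 K G δ ≤ ∫⁻ s in Ioo (0 : ℝ) 1, G s := by
  unfold W0
  rw [lintegral_lintegral_swap (meas_W0_aux K hG).aemeasurable]
  apply setLIntegral_mono' measurableSet_Ioo
  intro s hs
  have hs0 : 0 < s * K := mul_pos hs.1 (by linarith)
  rw [lintegral_mul_const _ (Measurable.ite (measurableSet_lt (by fun_prop) (by fun_prop))
    (by fun_prop) measurable_const)]
  apply mul_le_of_le_one_left'
  have h1 : ∫⁻ δ in Ioo (0 : ℝ) 1, (if s * K < δ then ENNReal.ofReal (s / δ ^ 2) else 0) ≤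
      ∫⁻ δ in Ioi (s * K), ENNReal.ofReal (s * δ ^ (-2 : ℝ)) := by
    refine (setLIntegral_le_lintegral _ _).trans ?_
    rw [← lintegral_indicator measurableSet_Ioi]
    apply lintegral_mono
    intro δ
    beta_reduce
    split_ifs with h
    · rw [indicator_of_mem (show δ ∈ Ioi (s * K) from h), rpow_neg (hs0.trans h).le, Real.rpow_two,
        div_eq_mul_inv]
    · exact zero_le
  refine h1.trans ?_
  rw [← ofReal_integral_eq_lintegral_ofReal
    ((integrableOn_Ioi_rpow_of_lt (by norm_num) hs0).const_mul s), integral_const_mul,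
    integral_Ioi_rpow_of_lt (by norm_num) hs0, ENNReal.ofReal_le_one]
  · have : (-2 + 1 : ℝ) = -1 := by norm_num
    rw [this, Real.rpow_neg_one]
    have hs1 := hs.1
    field_simp
    linarith
  · filter_upwards [ae_restrict_mem measurableSet_Ioi] with δ hδ
    have := hs0.trans hδ
    have := hs.1
    positivity

lemma jensen_exp {S : ℝ → ℝ} (hS : Continuous S) {γ c : ℝ} (hγ : 0 < γ) (hc : 0 < c) :
    c * exp ((∫ s in (0 : ℝ)..c, S s) / c + γ * (log c - 1)) ≤
      ∫ s in (0 : ℝ)..c, s ^ γ * exp (S s) := by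
  obtain ⟨m, hm⟩ : ∃ m, m = (∫ s in (0 : ℝ)..c, S s) / c + γ * (log c - 1) := ⟨_, rfl⟩
  rw [← hm]
  have i1 := hS.intervalIntegrable (μ := volume) 0 c
  have i2 : IntervalIntegrable (fun s => γ * log s) volume 0 c :=
    intervalIntegral.intervalIntegrable_log'.const_mul γ
  have i3 : IntervalIntegrable (fun s => (1 - m) + (S s + γ * log s)) volume 0 c :=
    intervalIntegrable_const.add (i1.add i2)
  have h1 : ∫ s in (0 : ℝ)..c, exp m * ((1 - m) + (S s + γ * log s)) = c * exp m := by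
    rw [intervalIntegral.integral_const_mul, intervalIntegral.integral_add intervalIntegrable_const
      (i1.add i2), intervalIntegral.integral_add i1 i2, intervalIntegral.integral_const_mul,
      integral_log, intervalIntegral.integral_const]
    have : ∫ s in (0 : ℝ)..c, S s = c * (m - γ * (log c - 1)) := by
      rw [hm]; field_simp; ring
    rw [this]
    simp only [sub_zero, smul_eq_mul, zero_mul, add_zero]
    ring
  rw [← h1]
  have hcont : Continuous fun s : ℝ => s ^ γ * exp (S s) :=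
    (continuous_rpow_const hγ.le).mul (by fun_prop)
  apply intervalIntegral.integral_mono_on_of_le_Ioo hc.le (i3.const_mul _)
    (hcont.intervalIntegrable _ _)
  intro s hs
  have e : s ^ γ * exp (S s) = exp m * exp ((S s + γ * log s) - m) := by
    rw [rpow_def_of_pos hs.1, ← exp_add, ← exp_add]; congr 1; ring
  rw [e]
  apply mul_le_mul_of_nonneg_left _ (exp_pos _).le
  linarith [add_one_le_exp ((S s + γ * log s) - m)]

lemma W0_ge {K α : ℝ} (hK : 2 ≤ K) (hα : -1 < α) {G : ℝ → ℝ≥0∞} {S : ℝ → ℝ} (hS : Continuous S)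
    (hG : ∀ s, ENNReal.ofReal (s ^ α * exp (S s)) ≤ G s) {δ : ℝ} (h0 : 0 < δ) (h1 : δ ≤ 1) :
    ENNReal.ofReal (δ ^ α * exp ((∫ s in (0 : ℝ)..(δ / K), S s) / (δ / K))) ≤
      ENNReal.ofReal (exp (α + 1) * K ^ (α + 2)) * W0 K G δ := by
  have hK0 : 0 < K := by linarith
  obtain ⟨c, hc⟩ : ∃ c, c = δ / K := ⟨_, rfl⟩
  have hc0 : 0 < c := by rw [hc]; positivity
  have hδ : δ = c * K := by rw [hc]; field_simp
  have hc1 : c ≤ 1 := by nlinarith
  rw [← hc]
  have hγ : 0 < α + 1 := by linarith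
  have h2 := jensen_exp hS hγ hc0
  have hcont : Continuous fun s : ℝ => s ^ (α + 1) * exp (S s) :=
    (continuous_rpow_const hγ.le).mul (by fun_prop)
  have h3 : ENNReal.ofReal ((δ ^ 2)⁻¹ * ∫ s in (0 : ℝ)..c, s ^ (α + 1) * exp (S s)) ≤ W0 K G δ := by
    rw [← intervalIntegral.integral_const_mul, intervalIntegral.integral_of_le hc0.le,
      integral_Ioc_eq_integral_Ioo, ofReal_integral_eq_lintegral_ofReal]
    · refine le_trans ?_ (lintegral_mono_set (Ioo_subset_Ioo_right hc1))
      apply setLIntegral_mono' measurableSet_Ioo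
      intro s hs
      rw [if_pos (by rw [hδ]; exact mul_lt_mul_of_pos_right hs.2 hK0)]
      refine le_trans (le_of_eq ?_) (mul_le_mul_right (hG s) _)
      have := hs.1
      rw [← ENNReal.ofReal_mul (by positivity), rpow_add_one this.ne']
      congr 1; ring
    · exact ((continuous_const.mul hcont).integrableOn_Icc).mono_set Ioo_subset_Icc_self
    · filter_upwards [ae_restrict_mem measurableSet_Ioo] with s hs
      have := hs.1
      positivity
  refine le_trans ?_ (mul_le_mul_right h3 _)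
  rw [← ENNReal.ofReal_mul (by positivity)]
  apply ENNReal.ofReal_le_ofReal
  refine le_trans (le_of_eq ?_) (mul_le_mul_of_nonneg_left
    (mul_le_mul_of_nonneg_left h2 (by positivity)) (by positivity))
  rw [exp_add (_ / c), mul_sub, mul_one, exp_sub, mul_comm (α + 1) (log c), ← rpow_def_of_pos hc0,
    hδ, mul_rpow hc0.le hK0.le, rpow_add_one hc0.ne', rpow_add hK0, Real.rpow_two]
  field_simp

noncomputable def Bf (a z : ℂ) : ℂ := (1 - z / a) / (1 - conj a * z)

lemma norm_Bf {a : ℂ} (ha : a ≠ 0) (z : ℂ) : ‖Bf a z‖ = ‖ph ‖a‖ (a * conj z)‖ := by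
  rw [← RCLike.norm_conj (Bf a z)]
  congr 1
  unfold Bf ph
  have h1 : ((‖a‖ : ℝ) : ℂ) ^ 2 = a * conj a := by
    rw [Complex.mul_conj, Complex.normSq_eq_norm_sq]; push_cast; rfl
  have h2 : conj a ≠ 0 := by simpa using ha
  rw [h1]
  simp only [map_div₀, map_sub, map_one, map_mul, Complex.conj_conj]
  congr 2
  field_simp

lemma cont_lam_num (r : ℝ) : Continuous fun c : ℝ => ∫ s in (0 : ℝ)..c, posLog ((1 - s) / r) :=
  intervalIntegral.continuous_primitive (fun _ _ => (cont_pl r).intervalIntegrable _ _) 0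

lemma meas_lam (r : ℝ) : Measurable (lam r) := (cont_lam_num r).measurable.div measurable_id

lemma sum_lam (p : ℝ) (r : ℕ → ℝ) (n : ℕ) (c : ℝ) :
    (∫ s in (0 : ℝ)..c, p * SS r n (1 - s)) / c = ∑ j ∈ Finset.range n, p * lam (r j) c := by
  unfold SS lam
  rw [intervalIntegral.integral_const_mul, intervalIntegral.integral_finset_sum
    (fun j _ => (cont_pl (r j)).intervalIntegrable _ _), ← Finset.mul_sum, ← Finset.sum_div,
    mul_div_assoc]

end Pool.Agent.H.MP_f69e58_an
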