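import Pool.Agent.H.MP_f69e58_an.C

set_option autoImplicit false
set_option maxHeartbeats 400000
open MeasureTheory Set Filter Topology Real Metric ENNReal ComplexConjugate

namespace Pool.Agent.H.MP_f69e58_an

lemma weight_le (α : ℝ) {t : ℝ} (h0 : 0 ≤ t) (h1 : t < 1) :
    (1 - t ^ 2) ^ α ≤ 2 ^ |α| * (1 - t) ^ α := by
  have e : 1 - t ^ 2 = (1 + t) * (1 - t) := by ring
  rw [e, Real.mul_rpow (by linarith) (by linarith)]
  apply mul_le_mul_of_nonneg_right _ (Real.rpow_nonneg (by linarith) _)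
  exact (Real.rpow_le_rpow_of_exponent_le (by linarith) (le_abs_self α)).trans
    (Real.rpow_le_rpow (by linarith) (by linarith) (abs_nonneg α))

lemma meas_Bf {X : Type} [MeasurableSpace X] {a z : X → ℂ} (ha : Measurable a) (hz : Measurable z) :
    Measurable fun x => Bf (a x) (z x) := by
  unfold Bf
  exact (measurable_const.sub (hz.div ha)).div
    (measurable_const.sub ((Complex.continuous_conj.measurable.comp ha).mul hz))

theorem final :
    ∀ (p α : ℝ), 0 < p → -1 < α →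
    ∀ d : ℕ → ℂ, (∀ j, 0 < ‖d j‖) → (∀ j, ‖d j‖ ≤ ‖d (j + 1)‖) → (∀ j, ‖d j‖ < 1) →
    (∀ t : ℝ, t < 1 → {j : ℕ | ‖d j‖ ≤ t}.Finite) →
    MeasureTheory.IntegrableOn
      (fun r : ℝ => (1 - r) ^ α *
        Real.exp (p * ∫ t in (0 : ℝ)..r, (Nat.card {j : ℕ // ‖d j‖ ≤ t} : ℝ) / t))
      (Set.Ioo 0 1) →
    ∃ θ : ℕ → ℝ, (∀ j, θ j ∈ Set.Ico 0 (2 * Real.pi)) ∧
      ∃ f : ℂ → ℂ, DifferentiableOn ℂ f (Metric.ball 0 1) ∧
        MeasureTheory.IntegrableOn (fun z : ℂ => (1 - ‖z‖ ^ 2) ^ α * ‖f z‖ ^ p)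
          (Metric.ball 0 1) ∧
        (∃ z ∈ Metric.ball (0 : ℂ) 1, f z ≠ 0) ∧
        ∀ j, f (d j * Complex.exp ((θ j : ℂ) * Complex.I)) = 0 := by
  intro p α hp hα d hd0 hdm hd1 hfin hint
  have hmono : ∀ j, ‖d 0‖ ≤ ‖d j‖ := fun j =>
    monotone_nat_of_le_succ (f := fun j => ‖d j‖) hdm (Nat.zero_le j)
  obtain ⟨K, hK, hest⟩ := main_est (hd0 0) hp
  obtain ⟨r, hr⟩ : ∃ r : ℕ → ℝ, r = fun j => ‖d j‖ := ⟨_, rfl⟩
  have hrj : ∀ j, ‖d j‖ = r j := fun j => by rw [hr]
  simp only [hrj] at hd0 hd1 hfin hint hmono hest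
  obtain ⟨G, hG⟩ : ∃ G : ℝ → ℝ≥0∞,
    G = fun s => ⨆ n, ENNReal.ofReal (s ^ α * exp (p * SS r n (1 - s))) := ⟨_, rfl⟩
  have hGm : Measurable G := by
    rw [hG]
    refine Measurable.iSup fun n => ?_
    have := (cont_SS r n).measurable
    fun_prop
  have mp : MeasurePreserving (fun s : ℝ => 1 - s) := Measure.measurePreserving_sub_left volume 1
  have hpre : (fun s : ℝ => 1 - s) ⁻¹' Ioo 0 1 = Ioo 0 1 := by
    ext s; simp only [mem_preimage, mem_Ioo]; constructor <;> intro h <;> constructor <;> linarith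
  have hGi : ∫⁻ s in Ioo (0 : ℝ) 1, G s ≠ ⊤ := by
    rw [← mp.setLIntegral_comp_preimage measurableSet_Ioo hGm, hpre]
    refine ne_top_of_le_ne_top hint.2.ne ?_
    apply setLIntegral_mono' measurableSet_Ioo
    intro x hx
    rw [hG]
    refine iSup_le fun n => le_trans ?_ (Real.ofReal_le_enorm _)
    apply ENNReal.ofReal_le_ofReal
    rw [_root_.sub_sub_cancel]
    beta_reduce
    apply mul_le_mul_of_nonneg_left _ (Real.rpow_nonneg (by linarith [hx.2]) _)
    exact exp_le_exp.2 (mul_le_mul_of_nonneg_left (SS_le hd0 hfin n hx.1 hx.2) hp.le)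
  have hW0 := meas_W0 K hGm
  have hWi : ∫⁻ z in ball (0 : ℂ) 1, W0 K G (1 - ‖z‖) ≠ ⊤ := by
    apply radial (g := fun y => W0 K G (1 - y)) (hW0.comp mp.measurable)
    rw [← hpre, mp.setLIntegral_comp_preimage measurableSet_Ioo hW0]
    exact ne_top_of_le_ne_top hGi (W0_int (by linarith) hGm)
  obtain ⟨u, hu⟩ : ∃ u : ℕ → ℝ → ℂ → ℝ≥0∞, u = fun j θ z => ENNReal.ofReal
    (‖Bf (d j * circleMap 0 1 θ) z‖ ^ p / exp (p * lam (r j) ((1 - ‖z‖) / K))) := ⟨_, rfl⟩
  have hne : ∀ j θ, ‖d j * circleMap 0 1 θ‖ = r j := fun j θ => by simp [hrj]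
  have hne' : ∀ j θ, d j * circleMap 0 1 θ ≠ 0 := fun j θ =>
    norm_pos_iff.1 (by rw [hne]; exact hd0 j)
  have hum : ∀ j, Measurable (Function.uncurry (u j)) := by
    intro j
    rw [hu]
    have h1 : Measurable fun q : ℝ × ℂ => Bf (d j * circleMap 0 1 q.1) q.2 := by
      have : Continuous fun q : ℝ × ℂ => d j * circleMap 0 1 q.1 := by fun_prop
      exact meas_Bf this.measurable measurable_snd
    have h2 : Measurable fun q : ℝ × ℂ => lam (r j) ((1 - ‖q.2‖) / K) :=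
      (meas_lam (r j)).comp (by fun_prop)
    exact ((h1.norm.pow_const p).div (h2.const_mul p).exp).ennreal_ofReal
  have hu1 : ∀ j, ∀ᵐ z ∂(volume.restrict (ball (0 : ℂ) 1)),
      ∫⁻ θ in Ico 0 (2 * π), u j θ z ≤ ENNReal.ofReal (2 * π) := by
    intro j
    filter_upwards [ae_restrict_mem measurableSet_ball] with z hz
    rw [mem_ball_zero_iff] at hz
    have hw : ‖d j * conj z‖ = r j * ‖z‖ := by rw [norm_mul, hrj, RCLike.norm_conj]
    have hw1 : ‖d j * conj z‖ < 1 := by rw [hw]; nlinarith [hd0 j, hd1 j, norm_nonneg z]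
    have h1 := hest (r j) ‖z‖ (hmono j) (hd1 j) (norm_nonneg _) hz _ hw
    obtain ⟨A, hA⟩ : ∃ A, A = exp (p * lam (r j) ((1 - ‖z‖) / K)) := ⟨_, rfl⟩
    have hA0 : 0 < A := by rw [hA]; positivity
    have hc : ContinuousOn (fun v => A⁻¹ * ‖ph (r j) (d j * conj z * v)‖ ^ p) (closedBall 0 1) :=
      continuousOn_const.mul
        ((ph_diff (r j) hw1).continuousOn.norm.rpow_const fun _ _ => Or.inr hp.le)
    have h2 := lint_circle hc (fun v => by positivity)
    have e : ∀ θ, u j θ z =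
        ENNReal.ofReal (A⁻¹ * ‖ph (r j) (d j * conj z * circleMap 0 1 θ)‖ ^ p) := by
      intro θ
      rw [hu]
      beta_reduce
      rw [norm_Bf (hne' j θ), hne, ← hA, div_eq_inv_mul, mul_right_comm]
    simp only [e]
    rw [h2, avg_cmul]
    apply mul_le_of_le_one_right'
    rw [ENNReal.ofReal_le_one, inv_mul_le_iff₀ hA0, mul_one, hA]
    exact h1
  obtain ⟨θ, hθ, hsel⟩ := select (volume.restrict (ball (0 : ℂ) 1)) hum hu1
    (W := fun z => W0 K G (1 - ‖z‖)) (hW0.comp (by fun_prop))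
  refine ⟨θ, hθ, ?_⟩
  have ea : ∀ j, d j * Complex.exp ((θ j : ℂ) * Complex.I) = d j * circleMap 0 1 (θ j) :=
    fun j => by simp [circleMap]
  simp only [ea]
  obtain ⟨c, hc⟩ : ∃ c : ℝ≥0∞, c = ENNReal.ofReal (2 ^ |α|) *
    ENNReal.ofReal (exp (α + 1) * K ^ (α + 2)) := ⟨_, rfl⟩
  have hc1 : c ≠ ⊤ := by rw [hc]; exact mul_ne_top ofReal_ne_top ofReal_ne_top
  apply limit hp (mul_ne_top hc1 hWi)
    (F := fun n z => ∏ j ∈ Finset.range n, Bf (d j * circleMap 0 1 (θ j)) z)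
  · intro n
    exact Finset.measurable_prod _ fun j _ => meas_Bf measurable_const measurable_id
  · intro n
    apply DifferentiableOn.fun_finset_prod
    intro j _
    unfold Bf
    refine DifferentiableOn.div (by fun_prop) (by fun_prop) fun z hz => ?_
    exact den_ne (by rw [RCLike.norm_conj, hne]; exact hd1 j) (ball_subset_closedBall hz)
  · intro n
    refine le_trans ?_ (mul_le_mul_right (hsel n) c)
    rw [← lintegral_const_mul' _ _ hc1]
    apply setLIntegral_mono' measurableSet_ball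
    intro z hz
    rw [mem_ball_zero_iff] at hz
    have h1 := W0_ge hK hα (G := G) (S := fun s => p * SS r n (1 - s))
      (by have := cont_SS r n; fun_prop)
      (fun s => by rw [hG]; exact le_iSup (fun n => ENNReal.ofReal
        (s ^ α * exp (p * SS r n (1 - s)))) n)
      (δ := 1 - ‖z‖) (by linarith) (by linarith [norm_nonneg z])
    rw [sum_lam, exp_sum] at h1
    have h2 : ∏ j ∈ Finset.range n, u j (θ j) z = ENNReal.ofReal
        (‖∏ j ∈ Finset.range n, Bf (d j * circleMap 0 1 (θ j)) z‖ ^ p /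
          ∏ j ∈ Finset.range n, exp (p * lam (r j) ((1 - ‖z‖) / K))) := by
      rw [hu, norm_prod, ← Real.finset_prod_rpow _ _ (fun _ _ => norm_nonneg _),
        ← Finset.prod_div_distrib, ENNReal.ofReal_prod_of_nonneg (fun _ _ => by positivity)]
    rw [h2, hc, ← mul_assoc, mul_assoc (ENNReal.ofReal (2 ^ |α|))]
    refine le_trans ?_ (mul_le_mul_left (mul_le_mul_right h1 _) _)
    have h3 : 0 < ∏ j ∈ Finset.range n, exp (p * lam (r j) ((1 - ‖z‖) / K)) :=
      Finset.prod_pos fun _ _ => exp_pos _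
    have h4 : 0 ≤ (1 - ‖z‖) ^ α := Real.rpow_nonneg (by linarith) _
    rw [← ENNReal.ofReal_mul (by positivity), ← ENNReal.ofReal_mul (by positivity)]
    apply ENNReal.ofReal_le_ofReal
    refine (mul_le_mul_of_nonneg_right (weight_le α (norm_nonneg z) hz) (by positivity)).trans
      (le_of_eq ?_)
    field_simp
  · intro n; simp [Bf]
  · intro j; rw [hne]; exact hd1 j
  · intro j n hj
    apply Finset.prod_eq_zero (Finset.mem_range.2 hj)
    unfold Bf
    rw [div_self (hne' j _), sub_self, zero_div]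

end Pool.Agent.H.MP_f69e58_an
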